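import Pool.Agent.Run7.h45.Ch10

/-!
# The alternating sums of Knörr and Robinson: all or nothing, in one sequence of groups

`O` is a valuation subring of `ℂ` whose maximal ideal contains `p`; blocks, defect groups and block
induction are defined by central characters modulo this maximal ideal. Let `q ≥ 2` be an integer not
divisible by `p` and `Γ_n = M_n(ℤ/q) ⋊ S_n` the semidirect product of the additive group of the
`n × n` matrices over `ℤ/q` with `S_n`, which permutes the rows and the columns simultaneously.

Proof. For every finite group `G` there is a constant `c` such that for all `n ≥ c k` the direct power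
`G^k` is the stabiliser in `S_n` of a character of `M_n(ℤ/q)`. So for every block `B` of `G` the number
`S(B)^k` is the alternating sum of a block of `Γ_n`. If these numbers are at most `exp (ε n)`, then
`|S(B)|^k ≤ exp (ε n)` for even `k`, hence `|S(B)| ≤ 1`. For odd `p` the recursion
`2 S(B ≀ C₂) = S(B)² + 3 S(B)` excludes the values `1` and `-1`.
-/

set_option autoImplicit false

noncomputable section

namespace Pool.Agent.Results.MP_6a3f1a_al.AllOrNothing

open Filter
open Pool.Agent.Y63.KR (alternatingSum)
open Pool.Agent.Q90.WR (IndS AdmB)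
open Run7.h45 (MatGrp)

/-- `k(B_σ)` for `G_σ = H`: the number of the irreducible characters `θ` of the subgroup `H` with
`bl(θ)^G = B`. -/
def kB (O : ValuationSubring ℂ) {G : Type} [Group G] (B : Set (G → ℂ)) (H : Subgroup G) : ℕ :=
  Nat.card (IndS O B (Subtype.val : H → G))

/-- The alternating sum `∑_σ (-1)^|σ| k(B_σ)` over representatives `σ` of the `G`-classes of chains of
nontrivial `p`-subgroups of `G`, the empty chain included. -/
def S (p : ℕ) (O : ValuationSubring ℂ) {G : Type} [Group G] (B : Set (G → ℂ)) : ℤ :=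
  alternatingSum p G (fun H => (kB O B H : ℤ))

/-- For every `ε > 0` there are infinitely many `n` such that `S(B) ≤ exp (ε n)` for all blocks `B` of
`M_n(ℤ/q) ⋊ S_n` with nontrivial defect groups. -/
def Subexp (p : ℕ) (O : ValuationSubring ℂ) (q : ℕ) : Prop :=
  ∀ ε : ℝ, 0 < ε → ∃ᶠ n : ℕ in atTop, ∀ B : Set (MatGrp q n → ℂ), AdmB p O (MatGrp q n) B →
    (S p O B : ℝ) ≤ Real.exp (ε * n)

/-- **All or nothing.** Let `p` be a prime and `q ≥ 2` an integer not divisible by `p`. (1) The bound
`S(B) ≤ exp (ε n)`, for every `ε > 0`, infinitely many `n` and all blocks `B` of `M_n(ℤ/q) ⋊ S_n` with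
nontrivial defect groups, holds if and only if `|S(B)| ≤ 1` for all finite groups `G` with
`O_p(G) = 1` and all blocks `B` of `G` with nontrivial defect groups. (2) If `p` is odd, it holds if
and only if `S(B) = 0` for all these `G` and `B`. -/
theorem result (p : ℕ) [Fact p.Prime] (O : ValuationSubring ℂ) (hpO : (p : ℂ) ∈ O.nonunits)
    (q : ℕ) (hq : 2 ≤ q) (hpq : ¬ p ∣ q) :
    (Subexp p O q ↔ ∀ (G : Type) [Group G] (B : Set (G → ℂ)), AdmB p O G B → |S p O B| ≤ 1) ∧
    (p ≠ 2 → (Subexp p O q ↔
      ∀ (G : Type) [Group G] (B : Set (G → ℂ)), AdmB p O G B → S p O B = 0)) := by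
  have key : Subexp p O q ↔ ∀ (G : Type) [Group G] (B : Set (G → ℂ)), AdmB p O G B →
      |S p O B| ≤ 1 := by
    refine ⟨fun h G _ B hB => Run7.h45.kr_grow_mat hpO hq hpq h G B hB,
      fun h ε hε => Frequently.of_forall fun n B hB => ?_⟩
    have h1 : (|S p O B| : ℝ) ≤ 1 := by exact_mod_cast h _ B hB
    exact (le_abs_self _).trans (h1.trans (Real.one_le_exp (by positivity)))
  refine ⟨key, fun hp2 => ⟨fun h => ?_, fun h => key.2 fun G _ B hB => by
    rw [h G B hB]; simp⟩⟩
  refine Run7.h45.kr_of_one hp2 hpO fun G _ B hB => ?_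
  have h1 : (|S p O B| : ℝ) ≤ 1 := by exact_mod_cast key.1 h G B hB
  exact (le_abs_self _).trans h1

end Pool.Agent.Results.MP_6a3f1a_al.AllOrNothing
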