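import Pool.Agent.Run7.h45.Ch10

/-!
# The alternating sums of Knörr and Robinson and perfect groups with alternating composition factors

`O` is a valuation subring of `ℂ` whose maximal ideal contains `p`; blocks, defect groups and block
induction are defined by central characters modulo this maximal ideal. For a subgroup `H` of the
alternating group `A_n` let `Z(A_n/H)` be the group of the functions `A_n/H → ℤ/q` with sum `0`, and let
`Z(A_n/H) ⋊ A_n` be its extension by `A_n`, which permutes the cosets.

Proof. Let `B` be a block of a finite group `G`, embedded into `A_n` as a subgroup `H` of index at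
least `3`. The evaluation at the trivial coset is a character of `Z(A_n/H)` with stabiliser `H`, and the
alternating sum for the corresponding block of `Z(A_n/H) ⋊ A_n` is `S(B)` (`Run7.h45.blkAlt_up`). For
one-sided bounds one uses direct squares and powers.
-/

set_option autoImplicit false

noncomputable section

namespace Pool.Agent.Results.MP_6a3f1a_al.PerfectGroups

open Filter
open Pool.Agent.Y63.KR (alternatingSum)
open Pool.Agent.Q90.WR (IndS AdmB)
open Run7.h45 (ZSGrp)

/-- `k(B_σ)` for `G_σ = H`: the number of the irreducible characters `θ` of the subgroup `H` with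
`bl(θ)^G = B`. -/
def kB (O : ValuationSubring ℂ) {G : Type} [Group G] (B : Set (G → ℂ)) (H : Subgroup G) : ℕ :=
  Nat.card (IndS O B (Subtype.val : H → G))

/-- The alternating sum `∑_σ (-1)^|σ| k(B_σ)` over representatives `σ` of the `G`-classes of chains of
nontrivial `p`-subgroups of `G`, the empty chain included. -/
def S (p : ℕ) (O : ValuationSubring ℂ) {G : Type} [Group G] (B : Set (G → ℂ)) : ℤ :=
  alternatingSum p G (fun H => (kB O B H : ℤ))

/-- **The alternating sums and perfect groups.** Let `p` be a prime and `q ≥ 2` an integer not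
divisible by `p`. (1) For `n ≥ 5` and all subgroups `H ≤ A_n` the group `Z(A_n/H) ⋊ A_n` is perfect.
(2) Let `N` be an infinite set of natural numbers. `S(B) = 0` for all finite groups `G` with
`O_p(G) = 1` and all blocks `B` of `G` with nontrivial defect groups if and only if `S(B) ≤ 0` for all
such blocks `B` of the groups `Z(A_n/H) ⋊ A_n` with `5 ≤ n ∈ N`, `H ≤ A_n`. (3) If `p` is odd, this
holds if and only if for every `ε > 0` there are infinitely many `n` such that `S(B) ≤ exp (ε n)` for
all `H ≤ A_n` and all such blocks of `Z(A_n/H) ⋊ A_n`. -/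
theorem result (p : ℕ) [Fact p.Prime] (O : ValuationSubring ℂ) (hpO : (p : ℂ) ∈ O.nonunits)
    (q : ℕ) (hq : 2 ≤ q) (hpq : ¬ p ∣ q) :
    (∀ n : ℕ, 5 ≤ n → ∀ H : Subgroup (alternatingGroup (Fin n)),
      commutator (ZSGrp q (alternatingGroup (Fin n)) H) = ⊤) ∧
    (∀ N : Set ℕ, N.Infinite →
      ((∀ (G : Type) [Group G] (B : Set (G → ℂ)), AdmB p O G B → S p O B = 0) ↔
        ∀ n ∈ N, 5 ≤ n → ∀ (H : Subgroup (alternatingGroup (Fin n)))
          (B : Set (ZSGrp q (alternatingGroup (Fin n)) H → ℂ)), AdmB p O _ B → S p O B ≤ 0)) ∧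
    (p ≠ 2 →
      ((∀ (G : Type) [Group G] (B : Set (G → ℂ)), AdmB p O G B → S p O B = 0) ↔
        ∀ ε : ℝ, 0 < ε → ∃ᶠ n : ℕ in atTop, ∀ (H : Subgroup (alternatingGroup (Fin n)))
          (B : Set (ZSGrp q (alternatingGroup (Fin n)) H → ℂ)), AdmB p O _ B →
            (S p O B : ℝ) ≤ Real.exp (ε * n))) := by
  have : NeZero q := ⟨by omega⟩
  refine ⟨fun n hn H => Run7.h45.perfect_alt hn H,
    fun N hN => Run7.h45.kr_nonpos_alt hpO hq hpq hN, fun hp2 => ⟨fun h ε hε =>
      Frequently.of_forall fun n H B hB => ?_, fun h => ?_⟩⟩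
  · rw [h _ B hB, Int.cast_zero]
    exact (Real.exp_pos _).le
  · refine Run7.h45.kr_of_one hp2 hpO fun G _ B hB => ?_
    have h1 : (|S p O B| : ℝ) ≤ 1 := by
      exact_mod_cast Run7.h45.kr_grow_alt hpO hq hpq h G B hB
    exact (le_abs_self _).trans h1

end Pool.Agent.Results.MP_6a3f1a_al.PerfectGroups
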